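import Pool.Agent.Helper77.SND.Stmts

/-!
Module YCOL: gluing colourings of the pieces.
-/

set_option autoImplicit false

namespace Pool.Agent.Helper77.SND

/-- coincidences of two pieces -/
theorem ycol_eq {V E L : Type} (X : SimpleGraph V) (x : V) (lam : E → Lf X x → L) (α β : E)
    (v w : V) (h : emb X x lam α v = emb X x lam β w) :
    (v = x ∧ w = x) ∨ (∃ (h1 : X.Adj x v) (h2 : X.Adj x w), lam α ⟨v, h1⟩ = lam β ⟨w, h2⟩) ∨
      (α = β ∧ v = w) := by
  unfold emb at h
  by_cases hv : v = x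
  · by_cases hw : w = x
    · exact Or.inl ⟨hv, hw⟩
    · by_cases hw' : X.Adj x w
      · simp [hv, hw, hw'] at h
      · simp [hv, hw, hw'] at h
  · by_cases hv' : X.Adj x v
    · by_cases hw : w = x
      · simp [hv, hv', hw] at h
      · by_cases hw' : X.Adj x w
        · simp only [hv, hv', hw, hw', dite_true, dite_false, Option.some.injEq,
            Sum.inl.injEq] at h
          exact Or.inr (Or.inl ⟨hv', hw', h⟩)
        · simp [hv, hv', hw, hw'] at h
    · by_cases hw : w = x
      · simp [hv, hv', hw] at h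
      · by_cases hw' : X.Adj x w
        · simp [hv, hv', hw, hw'] at h
        · simp only [hv, hv', hw, hw', dite_false, Option.some.injEq,
            Sum.inr.injEq, Prod.mk.injEq, Subtype.mk.injEq] at h
          exact Or.inr (Or.inr h)

/-- consistency for two ordered edges -/
theorem ycol_cons {V E L : Type} (X : SimpleGraph V) (x : V) (lam : E → Lf X x → L)
    (hinj : ∀ α, Function.Injective (lam α)) (hsp : Sparse 2 lam) (c : E → Sym2 V → Bool)
    (hc : ∀ α β (k k' : Lf X x), lam α k = lam β k' → c α s(x, k.1) = c β s(x, k'.1))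
    (α β : E) (a b a' b' : V) (hab : X.Adj a b) (hab' : X.Adj a' b')
    (h1 : emb X x lam α a = emb X x lam β a') (h2 : emb X x lam α b = emb X x lam β b') :
    c α s(a, b) = c β s(a', b') := by
  classical
  have hns : ∀ y, X.Adj y y → False := fun y hy => X.loopless.irrefl y hy
  by_cases hαβ : α = β
  · subst hαβ
    have key : ∀ v w : V, emb X x lam α v = emb X x lam α w → v = w := by
      intro v w h
      rcases ycol_eq X x lam α α v w h with ⟨p, q⟩ | ⟨p, q, r⟩ | ⟨_, r⟩
      · rw [p, q]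
      · exact congrArg Subtype.val (hinj α r)
      · exact r
    rw [key a a' h1, key b b' h2]
  · rcases ycol_eq X x lam α β a a' h1 with ⟨p, q⟩ | ⟨p, q, r⟩ | ⟨p, _⟩
    · rcases ycol_eq X x lam α β b b' h2 with ⟨p', q'⟩ | ⟨p', q', r'⟩ | ⟨p', _⟩
      · exfalso
        rw [p, p'] at hab
        exact hns x hab
      · rw [p, q]
        exact hc α β ⟨b, p'⟩ ⟨b', q'⟩ r'
      · exact absurd p' hαβ
    · rcases ycol_eq X x lam α β b b' h2 with ⟨p', q'⟩ | ⟨p', q', r'⟩ | ⟨p', _⟩
      · rw [p', q', Sym2.eq_swap, Sym2.eq_swap (a := a') (b := x)]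
        exact hc α β ⟨a, p⟩ ⟨a', q⟩ r
      · exfalso
        have hne : ({α, β} : Finset E).Nonempty := ⟨α, Finset.mem_insert_self _ _⟩
        obtain ⟨γ, hγ, hγ'⟩ := hsp {α, β} hne (Finset.card_le_two)
        rw [Finset.mem_insert, Finset.mem_singleton] at hγ
        have hα : α ∈ ({α, β} : Finset E) := Finset.mem_insert_self _ _
        have hβ : β ∈ ({α, β} : Finset E) :=
          Finset.mem_insert_of_mem (Finset.mem_singleton_self _)
        rcases hγ with rfl | rfl
        · have := hγ' β hβ β hβ (Ne.symm hαβ) (Ne.symm hαβ) ⟨a, p⟩ ⟨b, p'⟩ ⟨a', q⟩ ⟨b', q'⟩ r r'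
          have hab2 : a = b := congrArg Subtype.val this
          rw [hab2] at hab
          exact hns b hab
        · have := hγ' α hα α hα hαβ hαβ ⟨a', q⟩ ⟨b', q'⟩ ⟨a, p⟩ ⟨b, p'⟩ r.symm r'.symm
          have hab2 : a' = b' := congrArg Subtype.val this
          rw [hab2] at hab'
          exact hns b' hab'
      · exact absurd p' hαβ
    · exact absurd p hαβ

theorem st_YCOL : ST_YCOL := by
  classical
  intro V E L X x lam hinj hsp c hc
  let P : Sym2 (Option (L ⊕ (E × Pv X x))) → E × V × V → Prop := fun z p =>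
    X.Adj p.2.1 p.2.2 ∧ z = s(emb X x lam p.1 p.2.1, emb X x lam p.1 p.2.2)
  refine ⟨fun z => if h : ∃ p, P z p then c h.choose.1 s(h.choose.2.1, h.choose.2.2) else false,
    ?_⟩
  intro α a b hab
  have hex : ∃ p, P s(emb X x lam α a, emb X x lam α b) p := ⟨(α, a, b), hab, rfl⟩
  show (if h : ∃ p, P s(emb X x lam α a, emb X x lam α b) p then
    c h.choose.1 s(h.choose.2.1, h.choose.2.2) else false) = c α s(a, b)
  rw [dif_pos hex]
  obtain ⟨h1, h2⟩ := hex.choose_spec
  rcases Sym2.eq_iff.1 h2 with ⟨h3, h4⟩ | ⟨h3, h4⟩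
  · exact (ycol_cons X x lam hinj hsp c hc α _ a b _ _ hab h1 h3 h4).symm
  · have h5 := ycol_cons X x lam hinj hsp c hc α _ a b _ _ hab h1.symm h3 h4
    exact (congrArg _ Sym2.eq_swap).trans h5.symm

end Pool.Agent.Helper77.SND
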